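import Pool.Agent.Helper76.CQ.Defs
import Pool.Agent.Helper86.CY.SolveNormal

/-!
# Continuity: frames and windows near the base point (piece CQ-11b)
-/

set_option autoImplicit false

namespace Pool.Agent.Helper33.CQ

open Pool.Agent.Helper76.CY Pool.Agent.Helper76.CQ Pool.Agent.Helper86.CY Filter Topology

/-- Neighbourhoods of a tensor contain the tensors with close coefficients. -/
theorem exists_ball_ten (D₀ : Ten ℚ_[2]) (U : Set (Ten ℚ_[2])) (hU : U ∈ 𝓝 D₀) :
    ∃ δ > 0, ∀ D : Ten ℚ_[2], (∀ i j k, ‖D i j k - D₀ i j k‖ < δ) → D ∈ U := by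
  obtain ⟨δ, hδ, h⟩ := Metric.mem_nhds_iff.1 hU
  refine ⟨δ, hδ, fun D hD => h ?_⟩
  rw [Metric.mem_ball]
  refine (dist_pi_lt_iff hδ).2 fun i => (dist_pi_lt_iff hδ).2 fun j =>
    (dist_pi_lt_iff hδ).2 fun k => ?_
  rw [dist_eq_norm]
  exact hD i j k

/-- The value of a trilinear form is continuous. -/
theorem continuous_tri {X : Type*} [TopologicalSpace X] {E : X → Ten ℚ_[2]}
    {x y z : X → Fin 10 → ℚ_[2]} (hE : ∀ i j k, Continuous fun s => E s i j k)
    (hx : ∀ i, Continuous fun s => x s i) (hy : ∀ i, Continuous fun s => y s i)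
    (hz : ∀ i, Continuous fun s => z s i) : Continuous fun s => tri (E s) (x s) (y s) (z s) := by
  simp only [tri, Algebra.algebraMap_self, RingHom.id_apply]
  refine continuous_finsetSum _ fun i _ => continuous_finsetSum _ fun j _ =>
    continuous_finsetSum _ fun k _ => ?_
  exact (((hE i j k).mul (hx i)).mul (hy j)).mul (hz k)

theorem continuous_frame {X : Type*} [TopologicalSpace X] {Γ : X → Fin 10 × Fin 9 → ℚ_[2]}
    (hΓ : ∀ p, Continuous fun s => Γ s p) (l j : Fin 10) :
    Continuous fun s => frame (Γ s) l j := by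
  simp only [frame]
  refine continuous_const.add (continuous_finsetSum _ fun d _ => ?_)
  split_ifs
  · exact hΓ _
  · exact continuous_const

theorem frame_zero {K : Type*} [Ring K] (l : Fin 10) : frame (0 : Fin 10 × Fin 9 → K) l = bv K l := by
  funext j
  rw [frame, bv_apply]
  simp

theorem tri_upT (D : Ten ℚ) (x y z : Fin 10 → ℚ_[2]) :
    tri D x y z = tri (fun i j k => (D i j k : ℚ_[2])) x y z := by
  simp only [tri, Algebra.algebraMap_self, RingHom.id_apply, eq_ratCast]

theorem frame_near (ε : ℝ) (hε : 0 < ε) : ∃ δ > 0, ∀ (D : Ten ℚ) (Γ : Fin 10 × Fin 9 → ℚ_[2]),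
    (∀ i j k, ‖(D i j k : ℚ_[2]) - D0 ℚ_[2] i j k‖ < δ) → (∀ p, ‖Γ p‖ < δ) →
    (∀ i j k, ‖frT D (frame Γ) i j k - D0 ℚ_[2] i j k‖ < ε) ∧
      (Matrix.of (frame Γ)).det ≠ 0 := by
  have h1 : ∀ᶠ s : Ten ℚ_[2] × (Fin 10 × Fin 9 → ℚ_[2]) in 𝓝 (D0 ℚ_[2], 0),
      ∀ i j k, ‖frT s.1 (frame s.2) i j k - D0 ℚ_[2] i j k‖ < ε := by
    rw [eventually_all]
    intro i
    rw [eventually_all]
    intro j
    rw [eventually_all]
    intro k
    have hc : Continuous fun s : Ten ℚ_[2] × (Fin 10 × Fin 9 → ℚ_[2]) =>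
        ‖frT s.1 (frame s.2) i j k - D0 ℚ_[2] i j k‖ := by
      refine ((continuous_tri (fun a b c => ?_) (fun a => ?_) (fun a => ?_)
        (fun a => ?_)).sub continuous_const).norm
      · exact (continuous_apply c).comp ((continuous_apply b).comp
          ((continuous_apply a).comp continuous_fst))
      · exact continuous_frame (fun p => (continuous_apply p).comp continuous_snd) _ _
      · exact continuous_frame (fun p => (continuous_apply p).comp continuous_snd) _ _
      · exact continuous_frame (fun p => (continuous_apply p).comp continuous_snd) _ _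
    refine hc.continuousAt.eventually_lt continuousAt_const ?_
    simp only [frT, frame_zero, tri_bv]
    simpa using hε
  have h2 : ∀ᶠ s : Ten ℚ_[2] × (Fin 10 × Fin 9 → ℚ_[2]) in 𝓝 (D0 ℚ_[2], 0),
      (Matrix.of (frame s.2)).det ≠ 0 := by
    have hc : Continuous fun s : Ten ℚ_[2] × (Fin 10 × Fin 9 → ℚ_[2]) =>
        (Matrix.of (frame s.2)).det := by
      refine Continuous.matrix_det (continuous_matrix fun l j => ?_)
      exact continuous_frame (fun p => (continuous_apply p).comp continuous_snd) _ _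
    refine hc.continuousAt.eventually_ne ?_
    have : (Matrix.of (frame (0 : Fin 10 × Fin 9 → ℚ_[2]))) = 1 := by
      ext l j
      rw [Matrix.of_apply, frame_zero, bv_apply, Matrix.one_apply]
      simp only [eq_comm]
    rw [this, Matrix.det_one]
    exact one_ne_zero
  obtain ⟨δ, hδ, h⟩ := Metric.eventually_nhds_iff.1 (h1.and h2)
  refine ⟨δ, hδ, fun D Γ hD hΓ => ?_⟩
  have h3 := @h ((fun i j k => (D i j k : ℚ_[2])), Γ) (by
    rw [Prod.dist_eq, max_lt_iff]
    constructor
    · refine (dist_pi_lt_iff hδ).2 fun i => (dist_pi_lt_iff hδ).2 fun j =>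
        (dist_pi_lt_iff hδ).2 fun k => ?_
      rw [dist_eq_norm]
      exact hD i j k
    · refine (dist_pi_lt_iff hδ).2 fun p => ?_
      rw [dist_eq_norm]
      simpa using hΓ p)
  refine ⟨fun i j k => ?_, h3.2⟩
  have h4 := h3.1 i j k
  simp only [frT] at h4 ⊢
  rwa [tri_upT]

/-- The ordered triples of indices `≤ 3` other than `(0, 3, 3)` are translates of `mon9`. -/
theorem exists_mon9 : ∀ i j k : Fin 10, i ≤ j → j ≤ k → k ≤ 3 → ¬ (i = 0 ∧ j = 3 ∧ k = 3) →
    ∃ o : Fin 9, j = i + (mon9 o).1 ∧ k = i + (mon9 o).2 := by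
  decide

theorem nondeg_of_det {K : Type*} [Field K] (D : Ten K)
    (h : (matA D (fun i => bv K (c3 i))).det ≠ 0) (m : Fin 10 → K) (h0 : m 0 = 0) (h1 : m 1 = 0)
    (h2 : m 2 = 0) (h3 : m 3 = 0)
    (hm : ∀ i j : Fin 3, tri D m (bv K (c3 i)) (bv K (c3 j)) = 0) : m = 0 := by
  have e := eq_ext6 m h0 h1 h2 h3
  have h4 : (matA D (fun i => bv K (c3 i))).mulVec (fun k => m (s6 k)) = 0 := by
    funext p
    rw [matA_mulVec, ← e, hm]
    rfl
  have h5 : (fun k => m (s6 k)) = 0 := by
    by_contra hne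
    exact h (Matrix.exists_mulVec_eq_zero_iff.1 ⟨_, hne, h4⟩)
  rw [e, h5]
  funext j
  rw [ext6]
  split_ifs <;> rfl

theorem window_near_of (hw : Window (D0 ℚ_[2])) (hs : shift (D0 ℚ_[2]) = D0 ℚ_[2]) : ∃ ε > 0, ∀ D : Ten ℚ_[2], (∀ i j k, D i j k = D j i k) →
    (∀ i j k, D i j k = D i k j) → (∀ i j k, ‖D i j k - D0 ℚ_[2] i j k‖ < ε) →
    (∀ (l : Fin 10) (o : Fin 9), D l (l + (mon9 o).1) (l + (mon9 o).2) = 0) →
    ∀ n : ℕ, Window (shift^[n] D) := by
  have h1 : {E : Ten ℚ_[2] | E 0 3 3 ≠ 0 ∧ (matA E (fun i => bv ℚ_[2] (c3 i))).det ≠ 0} ∈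
      𝓝 (D0 ℚ_[2]) := by
    refine Filter.Eventually.and ?_ ?_
    · have hc : Continuous fun E : Ten ℚ_[2] => E 0 3 3 :=
        (continuous_apply 3).comp ((continuous_apply 3).comp (continuous_apply 0))
      exact hc.continuousAt.eventually_ne hw.alpha
    · have hc : Continuous fun E : Ten ℚ_[2] => (matA E (fun i => bv ℚ_[2] (c3 i))).det := by
        refine Continuous.matrix_det (continuous_matrix fun p k => ?_)
        refine continuous_tri (fun a b c => ?_) (fun _ => continuous_const)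
          (fun _ => continuous_const) (fun _ => continuous_const)
        exact (continuous_apply c).comp ((continuous_apply b).comp (continuous_apply a))
      exact hc.continuousAt.eventually_ne (det_matA_ne_zero _ hw)
  obtain ⟨ε, hε, h2⟩ := exists_ball_ten _ _ h1
  refine ⟨ε, hε, fun D h12 h23 hD hz n => ?_⟩
  induction n generalizing D with
  | zero =>
    obtain ⟨ha, hd⟩ := h2 D hD
    exact
      { swap12 := h12
        swap23 := h23
        zero := fun i j k hij hjk hk hne => by
          obtain ⟨o, rfl, rfl⟩ := exists_mon9 i j k hij hjk hk hne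
          exact hz i o
        alpha := ha
        nondeg := nondeg_of_det D hd }
  | succ n ih =>
    rw [Function.iterate_succ_apply]
    refine ih (shift D) (fun i j k => h12 _ _ _) (fun i j k => h23 _ _ _) (fun i j k => ?_)
      (fun l o => ?_)
    · have h3 := hD (i + 1) (j + 1) (k + 1)
      have h4 : D0 ℚ_[2] (i + 1) (j + 1) (k + 1) = D0 ℚ_[2] i j k :=
        congrFun (congrFun (congrFun hs i) j) k
      rw [h4] at h3
      exact h3
    · have h3 := hz (l + 1) o
      rw [add_right_comm l 1, add_right_comm l 1] at h3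
      exact h3

end Pool.Agent.Helper33.CQ
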