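import Pool.Agent.Helper33.CQ.Near
import Pool.Agent.Helper90.CQ.BaseData

/-!
# Windows near the base point (piece CQ-11b)
-/

set_option autoImplicit false

namespace Pool.Agent.Helper33.CQ

open Pool.Agent.Helper76.CY Pool.Agent.Helper76.CQ

theorem window_near : ∃ ε > 0, ∀ D : Ten ℚ_[2], (∀ i j k, D i j k = D j i k) →
    (∀ i j k, D i j k = D i k j) → (∀ i j k, ‖D i j k - D0 ℚ_[2] i j k‖ < ε) →
    (∀ (l : Fin 10) (o : Fin 9), D l (l + (mon9 o).1) (l + (mon9 o).2) = 0) →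
    ∀ n : ℕ, Window (shift^[n] D) :=
  window_near_of (Pool.Agent.Helper90.CQ.window_D0 ℚ_[2]) (Pool.Agent.Helper90.CQ.shift_D0 ℚ_[2])

end Pool.Agent.Helper33.CQ
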